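import Mathlib

/-! Uniform cyclic substitutions (images shifted by the source letter) on three letters and squares. -/

namespace Helper181Dec

/-- `r`-th base-4 digit of the code `C`. -/
def V (C r : ℕ) : ℕ := (Nat.shiftRight C (2 * r)) % 4

/-- letter number `n` of the image of the three letter word `0 b c` (code `C`, block length `M`). -/
def T (C M b c n : ℕ) : ℕ :=
  ((bif Nat.blt n M then 0 else bif Nat.blt n (2 * M) then b else c) + V C (n % M)) % 3

/-- is there `j < k` with `T (s+j) ≠ T (t+j)`? -/
def mm (C M b c : ℕ) : ℕ → ℕ → ℕ → Bool :=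
  fun k => Nat.rec (motive := fun _ => ℕ → ℕ → Bool) (fun _ _ => false)
    (fun _ ih s t => bif Nat.beq (T C M b c s) (T C M b c t) then ih (s + 1) (t + 1) else true) k

theorem mm_zero (C M b c s t : ℕ) : mm C M b c 0 s t = false := rfl

theorem mm_succ (C M b c k s t : ℕ) : mm C M b c (k+1) s t =
    bif Nat.beq (T C M b c s) (T C M b c t) then mm C M b c k (s + 1) (t + 1) else true := rfl

theorem mm_true {C M b c : ℕ} : ∀ (k s t : ℕ), mm C M b c k s t = true →
    ∃ j < k, T C M b c (s + j) ≠ T C M b c (t + j) := by
  intro k
  induction k with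
  | zero => intro s t h; rw [mm_zero] at h; exact absurd h (by decide)
  | succ k ih =>
    intro s t h
    rw [mm_succ] at h
    by_cases he : T C M b c s = T C M b c t
    · have h1 : Nat.beq (T C M b c s) (T C M b c t) = true := by
        rw [Nat.beq_eq]; exact he
      rw [h1] at h
      simp only [cond_true] at h
      obtain ⟨j, hj, hne⟩ := ih _ _ h
      refine ⟨j + 1, by omega, ?_⟩
      rw [show s + (j + 1) = s + 1 + j by ring, show t + (j + 1) = t + 1 + j by ring]
      exact hne
    · exact ⟨0, by omega, by simpa using he⟩

/-- bounded universal quantifier as a Boolean: `f 0 && ... && f (n-1)`. -/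
def allB (f : ℕ → Bool) : ℕ → Bool :=
  fun n => Nat.rec (motive := fun _ => Bool) true (fun k ih => f k && ih) n

theorem allB_true {f : ℕ → Bool} : ∀ {n : ℕ}, allB f n = true → ∀ k < n, f k = true := by
  intro n
  induction n with
  | zero => intro _ k hk; omega
  | succ n ih =>
    intro h k hk
    have h' : (f n && allB f n) = true := h
    rw [Bool.and_eq_true] at h'
    rcases Nat.lt_succ_iff_lt_or_eq.mp hk with h1 | h1
    · exact ih h'.2 k h1
    · subst h1; exact h'.1

def anyB (f : ℕ → Bool) : ℕ → Bool :=
  fun n => Nat.rec (motive := fun _ => Bool) false (fun k ih => f k || ih) n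

theorem anyB_true {f : ℕ → Bool} : ∀ {n : ℕ}, anyB f n = true → ∃ k < n, f k = true := by
  intro n
  induction n with
  | zero => intro h; exact absurd h (by simp [anyB])
  | succ n ih =>
    intro h
    have h' : (f n || anyB f n) = true := h
    rw [Bool.or_eq_true] at h'
    rcases h' with h1 | h1
    · exact ⟨n, by omega, h1⟩
    · obtain ⟨k, hk, hf⟩ := ih h1
      exact ⟨k, by omega, hf⟩

/-- short squares: half length `p` with `1 ≤ p < M`, start `s < M`. -/
def shortB (C M : ℕ) : Bool :=
  allB (fun s => allB (fun q =>
    mm C M 1 0 (q+1) s (s + (q+1)) && (mm C M 1 2 (q+1) s (s + (q+1)) &&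
    (mm C M 2 0 (q+1) s (s + (q+1)) && mm C M 2 1 (q+1) s (s + (q+1))))) (M - 1)) M

/-- synchronisation: every nonzero shift has a mismatch of interior differences. -/
def syncB (C M : ℕ) : Bool :=
  allB (fun d => anyB (fun r =>
    Nat.blt (r+1) M && (Nat.blt ((r + (d+1)) % M + 1) M &&
     !(Nat.beq ((V C r + V C ((r + (d+1)) % M + 1)) % 3) ((V C (r+1) + V C ((r + (d+1)) % M)) % 3)))) M)
    (M - 1)

/-- a square of half length `p` at position `i`. -/
def Sq (v : ℕ → ℕ) (i p : ℕ) : Prop := ∀ j < p, v (i + j) = v (i + p + j)

theorem main {C M : ℕ} (hM : 2 ≤ M) (hS : shortB C M = true) (hY : syncB C M = true)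
    {u v : ℕ → ℕ} (hu : ∀ n, u n < 3) (hne : ∀ n, u n ≠ u (n + 1))
    (hv : ∀ n, v n = (u (n / M) + V C (n % M)) % 3)
    {i p : ℕ} (hp : 0 < p) (hsq : Sq v i p) : ∃ i' p', 0 < p' ∧ p = M * p' ∧ Sq u i' p' := by
  have hM0 : 0 < M := by omega
  by_cases hdvd : M ∣ p
  · obtain ⟨p', rfl⟩ := hdvd
    have hp' : 0 < p' := by
      rcases Nat.eq_zero_or_pos p' with h | h
      · subst h; simp at hp
      · exact h
    refine ⟨i / M, p', hp', rfl, ?_⟩
    intro j hj
    have hlt : M * j < M * p' := Nat.mul_lt_mul_of_pos_left hj hM0
    have h1 := hsq (M * j) hlt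
    rw [hv, hv] at h1
    have e1 : (i + M * j) / M = i / M + j := Nat.add_mul_div_left _ _ hM0
    have e2 : (i + M * j) % M = i % M := Nat.add_mul_mod_self_left _ _ _
    have e3 : (i + M * p' + M * j) / M = i / M + p' + j := by
      rw [Nat.add_mul_div_left _ _ hM0, Nat.add_mul_div_left _ _ hM0]
    have e4 : (i + M * p' + M * j) % M = i % M := by
      rw [Nat.add_mul_mod_self_left, Nat.add_mul_mod_self_left]
    rw [e1, e2, e3, e4] at h1
    have b1 := hu (i / M + j)
    have b2 := hu (i / M + p' + j)
    omega
  · exfalso
    by_cases hlarge : M < p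
    · -- synchronisation
      have hd0 : 0 < p % M := Nat.pos_of_ne_zero (fun h => hdvd (Nat.dvd_of_mod_eq_zero h))
      have hdM : p % M < M := Nat.mod_lt _ hM0
      have h1 := allB_true hY (p % M - 1) (by omega)
      obtain ⟨r, hr, h2⟩ := anyB_true h1
      have hds : p % M - 1 + 1 = p % M := by omega
      simp only [hds, Bool.and_eq_true, Bool.not_eq_true'] at h2
      obtain ⟨ha, hb, hc⟩ := h2
      have ha' : r + 1 < M := by
        have := Nat.le_of_ble_eq_true ha
        omega
      have hb' : (r + p % M) % M + 1 < M := by
        have := Nat.le_of_ble_eq_true hb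
        omega
      have hc' : (V C r + V C ((r + p % M) % M + 1)) % 3 ≠ (V C (r+1) + V C ((r + p % M) % M)) % 3 := by
        intro h
        rw [h, Nat.beq_refl] at hc
        exact absurd hc (by decide)
      -- position with residue r
      obtain ⟨j, hj, hres⟩ : ∃ j < M, (i + j) % M = r := by
        refine ⟨(r + (M - i % M)) % M, Nat.mod_lt _ hM0, ?_⟩
        rw [Nat.add_mod, Nat.mod_mod, ← Nat.add_mod]
        have hi : i % M < M := Nat.mod_lt _ hM0
        have h3 : i + (r + (M - i % M)) = (r + M) + M * (i / M) := by
          have := Nat.div_add_mod i M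
          omega
        rw [h3, Nat.add_mul_mod_self_left, Nat.add_mod_right, Nat.mod_eq_of_lt hr]
      have hq1 := hsq j (by omega)
      have hq2 := hsq (j + 1) (by omega)
      rw [hv, hv] at hq1 hq2
      have f1 : (i + (j + 1)) = (i + j) + 1 := by ring
      have f2 : (i + p + (j + 1)) = (i + p + j) + 1 := by ring
      have hres' : (i + p + j) % M = (r + p % M) % M := by
        rw [← hres, show i + p + j = (i + j) + p by ring]
        simp [Nat.add_mod]
      have g1 : ((i + j) + 1) / M = (i + j) / M ∧ ((i + j) + 1) % M = r + 1 := by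
        have := Nat.div_add_mod (i + j) M
        have hx : (i + j) + 1 = M * ((i + j) / M) + (r + 1) := by rw [← hres]; omega
        constructor
        · rw [hx, Nat.mul_add_div hM0, Nat.div_eq_of_lt ha', Nat.add_zero]
        · rw [hx, Nat.mul_add_mod, Nat.mod_eq_of_lt ha']
      have g2 : ((i + p + j) + 1) / M = (i + p + j) / M ∧
          ((i + p + j) + 1) % M = (r + p % M) % M + 1 := by
        have := Nat.div_add_mod (i + p + j) M
        have hx : (i + p + j) + 1 = M * ((i + p + j) / M) + ((r + p % M) % M + 1) := by
          rw [← hres']; omega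
        constructor
        · rw [hx, Nat.mul_add_div hM0, Nat.div_eq_of_lt hb', Nat.add_zero]
        · rw [hx, Nat.mul_add_mod, Nat.mod_eq_of_lt hb']
      rw [f1, f2, g1.1, g1.2, g2.1, g2.2] at hq2
      rw [hres, hres'] at hq1
      apply hc'
      omega
    · have hlt : p < M := by
        rcases Nat.lt_or_ge p M with h | h
        · exact h
        · have : p = M := by omega
          exact absurd (this ▸ dvd_refl M) hdvd
      set s := i % M with hs
      have hsM : s < M := Nat.mod_lt _ hM0
      have h1 := allB_true (allB_true hS s hsM) (p - 1) (by omega)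
      have hps : p - 1 + 1 = p := by omega
      simp only [hps, Bool.and_eq_true] at h1
      set q := i / M with hq
      have hi : i = M * q + s := (Nat.div_add_mod i M).symm
      -- letters
      have ha := hu q
      have hb := hu (q + 1)
      have hc := hu (q + 2)
      have hab := hne q
      have hbc := hne (q + 1)
      -- key: value of v at M q + n
      have key : ∀ b c : ℕ, b = (u (q+1) + 3 - u q) % 3 → c = (u (q+2) + 3 - u q) % 3 →
          ∀ n < 3 * M, v (M * q + n) = (u q + T C M b c n) % 3 := by
        intro b c hb' hc' n hn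
        rw [hv, Nat.mul_add_div hM0, Nat.mul_add_mod]
        unfold T
        by_cases h1 : n < M
        · have hx : Nat.blt n M = true := by
            rw [Nat.blt_eq]; exact h1
          rw [hx, Nat.div_eq_of_lt h1]
          simp only [cond_true, Nat.add_zero, Nat.zero_add]
          omega
        · have hx : Nat.blt n M = false := by
            rw [Bool.eq_false_iff]; intro h; rw [Nat.blt_eq] at h; exact h1 h
          rw [hx]
          simp only [cond_false]
          by_cases h2 : n < 2 * M
          · have hy : Nat.blt n (2 * M) = true := by rw [Nat.blt_eq]; exact h2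
            have hdiv : n / M = 1 := by
              rw [Nat.div_eq_iff hM0]; constructor <;> omega
            rw [hy, hdiv]
            simp only [cond_true]
            subst hb'
            omega
          · have hy : Nat.blt n (2 * M) = false := by
              rw [Bool.eq_false_iff]; intro h; rw [Nat.blt_eq] at h; exact h2 h
            have hdiv : n / M = 2 := by
              rw [Nat.div_eq_iff hM0]; constructor <;> omega
            rw [hy, hdiv]
            simp only [cond_false]
            subst hc'
            omega
      have fin : ∀ b c : ℕ, b = (u (q+1) + 3 - u q) % 3 → c = (u (q+2) + 3 - u q) % 3 →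
          mm C M b c p s (s + p) = true → False := by
        intro b c hb' hc' hmm
        obtain ⟨j, hj, hT⟩ := mm_true _ _ _ hmm
        apply hT
        have e := hsq j hj
        rw [show i + j = M * q + (s + j) by omega, show i + p + j = M * q + (s + p + j) by omega,
          key b c hb' hc' _ (by omega), key b c hb' hc' _ (by omega)] at e
        have t1 : T C M b c (s + j) < 3 := Nat.mod_lt _ (by norm_num)
        have t2 : T C M b c (s + p + j) < 3 := Nat.mod_lt _ (by norm_num)
        omega
      obtain ⟨m10, m12, m20, m21⟩ := h1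
      have hcases : ((u (q+1) + 3 - u q) % 3 = 1 ∧ (u (q+2) + 3 - u q) % 3 = 0) ∨
          ((u (q+1) + 3 - u q) % 3 = 1 ∧ (u (q+2) + 3 - u q) % 3 = 2) ∨
          ((u (q+1) + 3 - u q) % 3 = 2 ∧ (u (q+2) + 3 - u q) % 3 = 0) ∨
          ((u (q+1) + 3 - u q) % 3 = 2 ∧ (u (q+2) + 3 - u q) % 3 = 1) := by
        have e2 : u (q + 1 + 1) = u (q + 2) := rfl
        rw [e2] at hbc
        omega
      rcases hcases with h | h | h | h
      · exact fin 1 0 h.1.symm h.2.symm m10
      · exact fin 1 2 h.1.symm h.2.symm m12
      · exact fin 2 0 h.1.symm h.2.symm m20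
      · exact fin 2 1 h.1.symm h.2.symm m21

/-- code of the 175-letter block. -/
def C175 : ℕ := 225134317631922884499198316125581478022560441747886517643258618532504529116816511712591072535111022450788
def C35 : ℕ := 167770455491868117272
def C25 : ℕ := 167436653978776

end Helper181Dec
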