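import Mathlib
import Pool.Agent.Helper181_Dec.Basic

/-!
MP_d4aced_co, Q1 (Harju 2018): there are coprime `k, l ≥ 2` and an infinite squarefree ternary word
whose `k`-decimation and `l`-decimation are both squarefree.  We take `k = 5`, `l = 7`; the word is
the fixed point of a 175-uniform cyclic morphism `h`, and its two decimations are images of the word
under a 35-uniform and a 25-uniform cyclic morphism.
-/

namespace Pool.Agent.Helper181_Dec.CoprimeDecimations

/-- An infinite word `w` over the alphabet `{0,1,2}` is squarefree if it has no factor `xx` with `x`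
nonempty: `i` is the position where the factor starts and `p` the length of `x`. -/
def SquareFree (w : ℕ → Fin 3) : Prop :=
  ¬ ∃ i p : ℕ, 0 < p ∧ ∀ j < p, w (i + j) = w (i + p + j)

open Helper181Dec

theorem y175 : syncB C175 175 = true := by decide +kernel
theorem s175 : shortB C175 175 = true := by decide +kernel
theorem y35 : syncB C35 35 = true := by decide +kernel
theorem s35 : shortB C35 35 = true := by decide +kernel
theorem y25 : syncB C25 25 = true := by decide +kernel
theorem s25 : shortB C25 25 = true := by decide +kernel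

theorem c35 : ∀ r < 35, V C35 r = V C175 (5 * r) := by decide +kernel
theorem c25 : ∀ r < 25, V C25 r = V C175 (7 * r) := by decide +kernel
theorem adj : ∀ r < 174, V C175 r % 3 ≠ V C175 (r + 1) % 3 := by decide +kernel
theorem v0 : V C175 0 = 0 := by decide +kernel
theorem v174 : V C175 174 = 0 := by decide +kernel

/-- the fixed point of the 175-uniform morphism. -/
def w (n : ℕ) : ℕ :=
  if h : n = 0 then 0 else
    have : n / 175 < n := Nat.div_lt_self (Nat.pos_of_ne_zero h) (by norm_num)
    (w (n / 175) + V C175 (n % 175)) % 3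

theorem w_rec (n : ℕ) : w n = (w (n / 175) + V C175 (n % 175)) % 3 := by
  by_cases h : n = 0
  · subst h
    have h0 : w 0 = 0 := by rw [w]; simp
    simp [h0, v0]
  · rw [w]; simp [h]

theorem w_lt (n : ℕ) : w n < 3 := by
  rw [w_rec]; exact Nat.mod_lt _ (by norm_num)

theorem w_ne (n : ℕ) : w n ≠ w (n + 1) := by
  induction n using Nat.strong_induction_on with
  | _ n ih =>
    by_cases h : n % 175 = 174
    · have e1 : (n + 1) / 175 = n / 175 + 1 := by omega
      have e2 : (n + 1) % 175 = 0 := by omega
      have hq : n / 175 < n := by omega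
      have := ih _ hq
      rw [w_rec n, w_rec (n + 1), e1, e2, h, v0, v174]
      have b1 := w_lt (n / 175)
      have b2 := w_lt (n / 175 + 1)
      omega
    · have e1 : (n + 1) / 175 = n / 175 := by omega
      have e2 : (n + 1) % 175 = n % 175 + 1 := by omega
      have ha := adj (n % 175) (by omega)
      rw [w_rec n, w_rec (n + 1), e1, e2]
      omega

theorem w_nosq : ∀ p, 0 < p → ∀ i, ¬ Sq w i p := by
  intro p
  induction p using Nat.strong_induction_on with
  | _ p ih =>
    intro hp i hsq
    obtain ⟨i', p', hp', hpp, hsq'⟩ :=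
      main (by norm_num) s175 y175 w_lt w_ne w_rec hp hsq
    exact ih p' (by omega) hp' i' hsq'

theorem w5 (n : ℕ) : w (5 * n) = (w (n / 35) + V C35 (n % 35)) % 3 := by
  have e1 : (5 * n) / 175 = n / 35 := by omega
  have e2 : (5 * n) % 175 = 5 * (n % 35) := by omega
  rw [w_rec, e1, e2, c35 _ (Nat.mod_lt _ (by norm_num))]

theorem w7 (n : ℕ) : w (7 * n) = (w (n / 25) + V C25 (n % 25)) % 3 := by
  have e1 : (7 * n) / 175 = n / 25 := by omega
  have e2 : (7 * n) % 175 = 7 * (n % 25) := by omega
  rw [w_rec, e1, e2, c25 _ (Nat.mod_lt _ (by norm_num))]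

theorem a_nosq (p i : ℕ) (hp : 0 < p) : ¬ Sq (fun n => w (5 * n)) i p := by
  intro h
  obtain ⟨i', p', hp', _, hsq'⟩ :=
    main (by norm_num) s35 y35 w_lt w_ne (v := fun n => w (5 * n)) w5 hp h
  exact w_nosq p' hp' i' hsq'

theorem b_nosq (p i : ℕ) (hp : 0 < p) : ¬ Sq (fun n => w (7 * n)) i p := by
  intro h
  obtain ⟨i', p', hp', _, hsq'⟩ :=
    main (by norm_num) s25 y25 w_lt w_ne (v := fun n => w (7 * n)) w7 hp h
  exact w_nosq p' hp' i' hsq'

/-- the same word with letters in `Fin 3`. -/
def W (n : ℕ) : Fin 3 := ⟨w n, w_lt n⟩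

theorem result : ∃ k l : ℕ, 2 ≤ k ∧ 2 ≤ l ∧ Nat.Coprime k l ∧ ∃ w : ℕ → Fin 3,
    SquareFree w ∧ SquareFree (fun n => w (k * n)) ∧ SquareFree (fun n => w (l * n)) := by
  refine ⟨5, 7, by norm_num, by norm_num, by norm_num, W, ?_, ?_, ?_⟩
  · rintro ⟨i, p, hp, h⟩
    exact w_nosq p hp i (fun j hj => congrArg Fin.val (h j hj))
  · rintro ⟨i, p, hp, h⟩
    exact a_nosq p i hp (fun j hj => congrArg Fin.val (h j hj))
  · rintro ⟨i, p, hp, h⟩
    exact b_nosq p i hp (fun j hj => congrArg Fin.val (h j hj))

end Pool.Agent.Helper181_Dec.CoprimeDecimations
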